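import Pool.Agent.X165.CodeLin

/-! MP_b5f63d_co: the exponential growth rate of the kissing numbers (and of the spherical codes of
any angle) exists if and only if the averages of `log_2 τ(d) / d` over the dimensions `d ≤ N` converge,
and the oscillation `c_+ - c_-` is bounded by the oscillation of the averages. `kissing d` is `τ(d)`,
`sphMax d θ` the largest size of a spherical code of `ℝ^d` with angles at least `θ`, and
`codeRate θ d = log_2 (sphMax d θ) / d` (module `Pool.Agent.H818R2.KissDefs`). -/

set_option autoImplicit false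

open Filter
open scoped Topology

namespace Pool.Agent.Results.MP_b5f63d_co.AveragesDecide

open Pool.Agent.H818R2

/-- `log_2 τ(d) / d` -/
noncomputable def kissRate (d : ℕ) : ℝ := Real.logb 2 (kissing d) / d

/-- arithmetic mean of `u` over the dimensions `1 ≤ d ≤ N` -/
noncomputable def avg (u : ℕ → ℝ) (N : ℕ) : ℝ := (∑ d ∈ Finset.Icc 1 N, u d) / N

/-- `c_-` -/
noncomputable def cMinus : ℝ := liminf kissRate atTop

/-- `c_+` -/
noncomputable def cPlus : ℝ := limsup kissRate atTop

theorem result :
    -- (1) kissing numbers: the averages decide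
    (∀ c : ℝ, Tendsto kissRate atTop (𝓝 c) ↔ Tendsto (avg kissRate) atTop (𝓝 c)) ∧
    -- (2) kissing numbers: quantitative form
    (cPlus - cMinus) ^ 2 ≤
      16 * cPlus * (limsup (avg kissRate) atTop - liminf (avg kissRate) atTop) ∧
    -- (3) spherical codes of any angle
    (∀ θ : ℝ, 0 < θ → θ ≤ Real.pi →
      (∀ c : ℝ, Tendsto (codeRate θ) atTop (𝓝 c) ↔ Tendsto (avg (codeRate θ)) atTop (𝓝 c)) ∧
      (limsup (codeRate θ) atTop - liminf (codeRate θ) atTop) ^ 2 ≤
        16 * limsup (codeRate θ) atTop *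
          (limsup (avg (codeRate θ)) atTop - liminf (avg (codeRate θ)) atTop)) := by
  have e : avg = Pool.Agent.TH915.HC.mean := rfl
  have e2 : kissRate = codeRate (Real.pi / 3) := rfl
  have h3 : 0 < Real.sin (Real.pi / 3 / 2) :=
    Pool.Agent.X165.LS.sin_half_pos (by positivity) (by linarith [Real.pi_pos])
  refine ⟨fun c => ?_, ?_, fun θ h0 h1 => ⟨fun c => ?_, ?_⟩⟩
  · rw [e, e2]
    exact Pool.Agent.X165.LS.code_tendsto h3 c
  · rw [cPlus, cMinus, e, e2]
    exact Pool.Agent.X165.LS.code_osc h3
  · rw [e]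
    exact Pool.Agent.X165.LS.code_tendsto (Pool.Agent.X165.LS.sin_half_pos h0 h1) c
  · rw [e]
    exact Pool.Agent.X165.LS.code_osc (Pool.Agent.X165.LS.sin_half_pos h0 h1)

end Pool.Agent.Results.MP_b5f63d_co.AveragesDecide
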