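import Pool.Agent.X27.Kiss.Eq

/-!
# The largest kissing configurations invariant under all coordinate reflections

A kissing configuration of `ℝᵈ` is a finite set of unit vectors with pairwise inner products at most
`1/2`.  If it is invariant under the reflections in the `d` coordinate hyperplanes and `d ≥ 5`, it
has at most `2 d + 2 d (d - 1) (d - 2) / 3` elements.  For `d ≥ 6` equality is possible if and only
if there is a Steiner quadruple system on `d` points, in particular for all powers of two: `240` for
`d = 8` (the roots of `E₈`).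

Proof.  By the invariance all nonzero entries have absolute value at least `1/2`, so a support has
at most four elements, and vectors with different absolute values `|x|`, `|y|` satisfy
`Σ |x_i| |y_i| ≤ 1/2`.  Count the pairs of coordinates in the supports with the weight `1` if both
entries are `±1/2`, and otherwise `d - 2` (supports with three elements) or `2 (d - 2)` (two
elements).  Every pair of coordinates has total weight at most `8 (d - 2)`: if some vector has an
entry larger than `1/2` there, all vectors whose support contains the pair have the same absolute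
values; otherwise the rests of the supports are disjoint for different absolute values.  Every vector
which is not a multiple of a unit vector has weight at least `12`.
-/

set_option autoImplicit false

namespace Pool.Agent.Results.MP_b5f63d_co.CoordinateReflections

open Pool.Agent.X27.Kiss (IsKissing ReflInv SQS)

theorem result :
    (∀ d : ℕ, 5 ≤ d → ∀ X : Finset (Fin d → ℝ), IsKissing X → ReflInv X →
      3 * (X.card : ℝ) ≤ 6 * d + 2 * d * (d - 1) * (d - 2)) ∧
    (∀ d : ℕ, 6 ≤ d → ((∃ X : Finset (Fin d → ℝ), IsKissing X ∧ ReflInv X ∧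
        3 * (X.card : ℝ) = 6 * d + 2 * d * (d - 1) * (d - 2)) ↔
      ∃ Q : Finset (Finset (Fin d)), SQS Q)) ∧
    (∀ k : ℕ, 1 ≤ k → ∃ X : Finset (Fin (2 ^ k) → ℝ), IsKissing X ∧ ReflInv X ∧
        3 * (X.card : ℝ) = 6 * 2 ^ k + 2 * 2 ^ k * (2 ^ k - 1) * (2 ^ k - 2)) := by
  refine ⟨fun d hd X hk hr => ?_, fun d hd => ⟨?_, ?_⟩, fun k hk => ?_⟩
  · have h := Pool.Agent.X27.Kiss.upper hk hr (by rwa [Fintype.card_fin])
    rwa [Fintype.card_fin] at h
  · rintro ⟨X, hk, hr, h⟩
    refine Pool.Agent.X27.Kiss.sqs_of_eq hk hr (by rwa [Fintype.card_fin]) ?_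
    rwa [Fintype.card_fin]
  · rintro ⟨Q, hQ⟩
    refine ⟨_, Pool.Agent.X27.Kiss.kissing hQ, Pool.Agent.X27.Kiss.refl, ?_⟩
    have h := Pool.Agent.X27.Kiss.attained hQ (by rw [Fintype.card_fin]; omega)
    rwa [Fintype.card_fin] at h
  · obtain ⟨Q, hQ⟩ := Pool.Agent.X27.Kiss.exists_sqs (ι := Fin (2 ^ k)) (k := k) (Fintype.card_fin _)
    refine ⟨_, Pool.Agent.X27.Kiss.kissing hQ, Pool.Agent.X27.Kiss.refl, ?_⟩
    have h := Pool.Agent.X27.Kiss.attained hQ (by
      rw [Fintype.card_fin]
      calc 2 = 2 ^ 1 := (pow_one 2).symm
        _ ≤ 2 ^ k := Nat.pow_le_pow_right (by norm_num) hk)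
    rw [Fintype.card_fin] at h
    push_cast at h
    exact h

end Pool.Agent.Results.MP_b5f63d_co.CoordinateReflections
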