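import Pool.Agent.X165.CodeLin

/-! MP_b5f63d_co: `log_2 τ(d) / d` visits every neighbourhood of every point of `[c_-, c_+]` with
explicit positive upper density, it fills `[c_-, c_+]` along every slowly growing sequence of
dimensions, and lacunary sequences of dimensions (for example the powers of two) determine `c_-` and
`c_+` up to a factor. The same for spherical codes of any angle. `kissing d` is `τ(d)`, `sphMax d θ` the
largest size of a spherical code of `ℝ^d` with angles at least `θ`, and
`codeRate θ d = log_2 (sphMax d θ) / d` (module `Pool.Agent.H818R2.KissDefs`). -/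

set_option autoImplicit false

open Filter
open scoped Topology

namespace Pool.Agent.Results.MP_b5f63d_co.VisitsAndSubsequences

open Pool.Agent.H818R2

/-- `log_2 τ(d) / d` -/
noncomputable def kissRate (d : ℕ) : ℝ := Real.logb 2 (kissing d) / d

/-- `c_-` of a sequence of rates -/
noncomputable def lower (u : ℕ → ℝ) : ℝ := liminf u atTop

/-- `c_+` of a sequence of rates -/
noncomputable def upper (u : ℕ → ℝ) : ℝ := limsup u atTop

/-- the three statements for a sequence `u` of rates -/
def Statement (u : ℕ → ℝ) : Prop :=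
  -- (1) visits with positive upper density
  (∀ c ε x : ℝ, upper u < c → 0 < ε → ε ≤ 2 * c → lower u ≤ x → x ≤ upper u →
    ∃ᶠ N : ℕ in atTop, ε / (9 * c) * (N : ℝ) ≤
      ({d : ℕ | d ∈ Finset.Icc 1 N ∧ |u d - x| < ε}.ncard : ℝ)) ∧
  -- (2) slowly growing sequences of dimensions
  (∀ φ : ℕ → ℕ, StrictMono φ → Tendsto (fun j => (φ (j + 1) : ℝ) / φ j) atTop (𝓝 1) →
    {x : ℝ | MapClusterPt x atTop (fun j => u (φ j))} = Set.Icc (lower u) (upper u)) ∧
  -- (3) lacunary sequences of dimensions
  (∀ (φ : ℕ → ℕ) (q : ℝ), StrictMono φ → 1 ≤ q → (∀ᶠ j in atTop, (φ (j + 1) : ℝ) ≤ q * φ j) →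
    upper u ≤ q * upper (fun j => u (φ j)) ∧ lower (fun j => u (φ j)) ≤ q * lower u)

theorem result :
    Statement kissRate ∧ ∀ θ : ℝ, 0 < θ → θ ≤ Real.pi → Statement (codeRate θ) := by
  have key : ∀ θ : ℝ, 0 < θ → θ ≤ Real.pi → Statement (codeRate θ) := by
    intro θ h0 h1
    have hs := Pool.Agent.X165.LS.sin_half_pos h0 h1
    exact ⟨fun c ε x hc hε hε2 hx1 hx2 => Pool.Agent.X165.LS.code_visits hs hc hε hε2 hx1 hx2,
      fun φ hφ hr => Pool.Agent.X165.LS.code_seq hs hφ hr,
      fun φ q hφ hq hr => Pool.Agent.X165.LS.code_lacunary hs hφ hq hr⟩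
  exact ⟨key (Real.pi / 3) (by positivity) (by linarith [Real.pi_pos]), key⟩

end Pool.Agent.Results.MP_b5f63d_co.VisitsAndSubsequences
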